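import Pool.Agent.K1H99.BC.Bary

/-!
# No bound for the Poincaré constant of Wasserstein barycenters of log-concave measures

Question Q1 has a negative answer in every dimension `n ≥ 4`, in a strong form: for fixed `n` and
`κ = 1 / (10 n²)` the Poincaré constant of the barycenter of `N` `κ`-strongly log-concave
probability measures on `ℝⁿ` (with equal weights) is unbounded as `N` grows.

The proof. Let `ν*` be the measure on `ℝⁿ` with density proportional to
`(‖x‖² - 1)² exp (-‖x‖² / 2)`. Its density vanishes on the unit sphere to the second order, so `ν*`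
satisfies no Poincaré inequality. But its projection on every line has a density proportional to
`((s² + n - 2)² + 2 (n - 1)) exp (-s² / 2)`, which is strongly log-concave for `n ≥ 4`. For a unit
vector `θ` and `ε > 0` let `μ_θ` be the law of `n ⟪X, θ⟫ θ + ε (Z - ⟪Z, θ⟫ θ)`, `X` of law `ν*`, `Z` a
standard Gaussian vector independent of `X`; it is `1 / (10 n²)`-strongly log-concave. If the vectors
`θ` run over the elements of finitely many orthonormal bases, then all the one-dimensional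
projections of the barycenter of the measures `μ_θ` to the directions `θ` are close to those of `ν*`
(quantitatively, as `ε → 0`). With a sequence of bases whose directions are dense the barycenters
converge weakly to `ν*` (Cramér-Wold), so their Poincaré constants are unbounded. The existence of
barycenters is also proved.
-/

set_option autoImplicit false

namespace Pool.Agent.Results.MP_7c2736_pr.NoPoincareBound

open MeasureTheory
open scoped ENNReal ContDiff

/-- `ℝⁿ` -/
abbrev E (n : ℕ) : Type := EuclideanSpace ℝ (Fin n)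

/-- `μ` is `κ`-strongly log-concave: `dμ = Z⁻¹ e^{-V} dx`, where `V : ℝⁿ → (-∞, ∞]` is proper and
lower semicontinuous, `0 < Z = ∫ e^{-V} dx < ∞`, and `V - κ ‖x‖² / 2` is convex. -/
def StronglyLogConcave {n : ℕ} (κ : ℝ) (μ : Measure (E n)) : Prop :=
  ∃ V : E n → EReal, (∀ x, V x ≠ ⊥) ∧ (∃ x, V x ≠ ⊤) ∧ LowerSemicontinuous V ∧
    (∀ (x y : E n) (a b : ℝ), 0 < a → 0 < b → a + b = 1 →
      V (a • x + b • y) - ((κ * ‖a • x + b • y‖ ^ 2 / 2 : ℝ) : EReal) ≤
        (a : EReal) * (V x - ((κ * ‖x‖ ^ 2 / 2 : ℝ) : EReal)) +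
          (b : EReal) * (V y - ((κ * ‖y‖ ^ 2 / 2 : ℝ) : EReal))) ∧
    (∫⁻ x, EReal.exp (-V x)) ≠ 0 ∧ (∫⁻ x, EReal.exp (-V x)) ≠ ⊤ ∧
    μ = (∫⁻ x, EReal.exp (-V x))⁻¹ • volume.withDensity fun x => EReal.exp (-V x)

/-- The Poincaré constant: the least `C ∈ [0, ∞]` such that `Var_μ f ≤ C ∫ |∇f|² dμ` for all smooth
functions `f` with compact support. -/
noncomputable def poincareConst {n : ℕ} (μ : Measure (E n)) : ℝ≥0∞ :=
  sInf {C : ℝ≥0∞ | ∀ f : E n → ℝ, ContDiff ℝ ∞ f → HasCompactSupport f →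
    ENNReal.ofReal (∫ x, (f x - ∫ y, f y ∂μ) ^ 2 ∂μ) ≤ C * ∫⁻ x, ‖gradient f x‖ₑ ^ 2 ∂μ}

/-- `π` is a coupling of `ν` and `μ` -/
def IsCoupling {n : ℕ} (π : Measure (E n × E n)) (ν μ : Measure (E n)) : Prop :=
  π.map Prod.fst = ν ∧ π.map Prod.snd = μ

/-- the square of the quadratic Wasserstein distance -/
noncomputable def W2sq {n : ℕ} (ν μ : Measure (E n)) : ℝ≥0∞ :=
  ⨅ (π : Measure (E n × E n)) (_ : IsCoupling π ν μ), ∫⁻ z, ‖z.1 - z.2‖ₑ ^ 2 ∂π

/-- `ν` is a barycenter of `μ 1, …, μ N` with the weights `w 1, …, w N` -/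
def IsBarycenter {n N : ℕ} (w : Fin N → ℝ) (μ : Fin N → Measure (E n)) (ν : Measure (E n)) : Prop :=
  IsProbabilityMeasure ν ∧ ∀ ν' : Measure (E n), IsProbabilityMeasure ν' →
    ∑ i, ENNReal.ofReal (w i) * W2sq ν (μ i) ≤ ∑ i, ENNReal.ofReal (w i) * W2sq ν' (μ i)

/-- **Theorem (negative answer to Q1 in all dimensions `n ≥ 4`).** For every `n ≥ 4` and every `C`
there are `N`, weights `w i = 1 / N`, probability measures `μ 1, …, μ N` on `ℝⁿ` which are
`κ i`-strongly log-concave with `κ i = 1 / (10 n²)`, and a barycenter `ν` of them with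
`√(C_P(ν)) > C ∑ w i / √(κ i)`. -/
theorem result (n : ℕ) (hn : 4 ≤ n) (C : ℝ) :
    ∃ (N : ℕ) (w κ : Fin N → ℝ) (μ : Fin N → Measure (E n)) (ν : Measure (E n)),
      (∀ i, 0 < w i) ∧ ∑ i, w i = 1 ∧ (∀ i, w i = 1 / N) ∧
      (∀ i, 0 < κ i) ∧ (∀ i, κ i = 1 / (10 * (n : ℝ) ^ 2)) ∧
      (∀ i, IsProbabilityMeasure (μ i)) ∧ (∀ i, StronglyLogConcave (κ i) (μ i)) ∧
      IsBarycenter w μ ν ∧
      ENNReal.ofReal (C * ∑ i, w i / √(κ i)) < poincareConst ν ^ (1 / 2 : ℝ) := by
  have hn0 : (0 : ℝ) < n := by exact_mod_cast (by omega : 0 < n)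
  have : Nonempty (Fin n) := ⟨⟨0, by omega⟩⟩
  have hcard : Fintype.card (Fin n) = n := Fintype.card_fin n
  have : Nontrivial (E n) := by
    refine ⟨EuclideanSpace.single ⟨0, by omega⟩ (1 : ℝ), 0, fun h => ?_⟩
    have h1 := congrArg norm h
    rw [PiLp.norm_single, norm_one, norm_zero] at h1
    exact one_ne_zero h1
  obtain ⟨B, ν, νs, hs, hsol, hlim⟩ := Pool.Agent.K1H99.BC.exists_seq (E := E n) (ι := Fin n)
    (by rw [finrank_euclideanSpace_fin, hcard]) (by rw [hcard]; omega)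
  rw [hcard] at hs
  set κ₀ : ℝ := 1 / (10 * (n : ℝ) ^ 2) with hκ₀
  have hκpos : 0 < κ₀ := by positivity
  obtain ⟨k, hk⟩ := Pool.Agent.K1H99.BC.cP_unbounded hs hlim ((|C| * (1 / √κ₀)) ^ 2) (by positivity)
  simp only [hcard] at hsol
  have hw0 : (0 : ℝ) < 1 / (((k : ℝ) + 1) * n) := by positivity
  have hb := Pool.Agent.K1H99.BC.bary_of_sol (w := fun _ : Fin (k + 1) × Fin n =>
    1 / (((k : ℝ) + 1) * n)) (fun _ => hw0) (by
      rw [Finset.sum_const, Finset.card_univ, Fintype.card_prod, Fintype.card_fin,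
        Fintype.card_fin, nsmul_eq_mul]
      push_cast
      field_simp) inferInstance (hsol k)
  have hb' := Pool.Agent.K1H99.BC.bary_reindex (finProdFinEquiv (m := k + 1) (n := n)).symm hb
  have hN : (((k + 1) * n : ℕ) : ℝ) = ((k : ℝ) + 1) * n := by push_cast; rfl
  have hsum1 : ∑ _i : Fin ((k + 1) * n), 1 / (((k : ℝ) + 1) * (n : ℝ)) = 1 := by
    rw [Finset.sum_const, Finset.card_univ, Fintype.card_fin, nsmul_eq_mul, hN]
    field_simp
  refine ⟨(k + 1) * n, fun _ => 1 / (((k : ℝ) + 1) * n), fun _ => κ₀,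
    fun i => Pool.Agent.K1H99.BC.mu n (Pool.Agent.K1H99.BC.eps k)
      (B (finProdFinEquiv.symm i).1 (finProdFinEquiv.symm i).2), (ν k : Measure (E n)),
    fun _ => hw0, hsum1, fun _ => by rw [hN], fun _ => hκpos, fun _ => rfl, fun i => ?_,
    fun i => ?_, ?_, ?_⟩
  · have := Pool.Agent.K1H99.BC.prob_mu (B (finProdFinEquiv.symm i).1) (finProdFinEquiv.symm i).2
      (by rw [hcard]; omega) (Pool.Agent.K1H99.BC.eps k)
    rwa [hcard] at this
  · have := Pool.Agent.K1H99.BC.strongLC_mu (B (finProdFinEquiv.symm i).1)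
      (finProdFinEquiv.symm i).2 (by rw [hcard]; omega) (Pool.Agent.K1H99.BC.eps_pos k)
      ((Pool.Agent.K1H99.BC.eps_le k).trans (by norm_num))
    rw [hcard] at this
    exact this
  · exact hb'
  · have e1 : poincareConst (ν k : Measure (E n)) =
        Pool.Agent.K1H99.BC.cP (ν k : Measure (E n)) := by
      unfold poincareConst Pool.Agent.K1H99.BC.cP
      have h1 : ∀ (f : E n → ℝ) (x : E n), ‖gradient f x‖ₑ = ‖fderiv ℝ f x‖ₑ := by
        intro f x
        unfold gradient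
        rw [← ofReal_norm, ← ofReal_norm, LinearIsometryEquiv.norm_map]
      simp_rw [h1]
    rw [e1, ← Finset.sum_div, hsum1]
    have h2 : ENNReal.ofReal (C * (1 / √κ₀)) ≤ ENNReal.ofReal (|C| * (1 / √κ₀)) := by
      apply ENNReal.ofReal_le_ofReal
      exact mul_le_mul_of_nonneg_right (le_abs_self C) (by positivity)
    refine lt_of_le_of_lt h2 ?_
    have h3 : (ENNReal.ofReal ((|C| * (1 / √κ₀)) ^ 2)) ^ (1 / 2 : ℝ) =
        ENNReal.ofReal (|C| * (1 / √κ₀)) := by
      rw [ENNReal.ofReal_rpow_of_nonneg (by positivity) (by norm_num), ← Real.sqrt_eq_rpow,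
        Real.sqrt_sq (by positivity)]
    rw [← h3]
    exact ENNReal.rpow_lt_rpow hk (by norm_num)

end Pool.Agent.Results.MP_7c2736_pr.NoPoincareBound
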