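import Pool.Agent.K1H99.BC.Split

/-!
# Common curvature-saturating Gaussian factors do not give equality

Question Q2 has a negative answer in every dimension `n ≥ 5`: the condition on the right hand side of
the equivalence does not imply the equality. There are `N` probability measures on `ℝⁿ`, all
`κ`-strongly log-concave with the same `κ` and all splitting off a curvature-saturating Gaussian
factor in the same direction, and a barycenter `ν` of them with `√(C_P(ν)) > C ∑ w i / √(κ i)`, where `C`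
is arbitrarily large.

The proof. In `ℝ^(n-1)` there are such measures without the Gaussian factor (`NoPoincareBound`). The
barycenter problem for the products with the Gaussian measure of variance `1 / κ` on a line is solved
by the product of this Gaussian measure and of the barycenter, the products are `κ`-strongly
log-concave, and the Poincaré constant of a product is at least the one of the factor.
-/

set_option autoImplicit false

namespace Pool.Agent.Results.MP_7c2736_pr.SplittingNotEnough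

open MeasureTheory ProbabilityTheory
open scoped ENNReal ContDiff RealInnerProductSpace

/-- `ℝⁿ` -/
abbrev E (n : ℕ) : Type := EuclideanSpace ℝ (Fin n)

/-- `μ` is `κ`-strongly log-concave: `dμ = Z⁻¹ e^{-V} dx`, where `V : ℝⁿ → (-∞, ∞]` is proper and
lower semicontinuous, `0 < Z = ∫ e^{-V} dx < ∞`, and `V - κ ‖x‖² / 2` is convex. -/
def StronglyLogConcave {n : ℕ} (κ : ℝ) (μ : Measure (E n)) : Prop :=
  ∃ V : E n → EReal, (∀ x, V x ≠ ⊥) ∧ (∃ x, V x ≠ ⊤) ∧ LowerSemicontinuous V ∧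
    (∀ (x y : E n) (a b : ℝ), 0 < a → 0 < b → a + b = 1 →
      V (a • x + b • y) - ((κ * ‖a • x + b • y‖ ^ 2 / 2 : ℝ) : EReal) ≤
        (a : EReal) * (V x - ((κ * ‖x‖ ^ 2 / 2 : ℝ) : EReal)) +
          (b : EReal) * (V y - ((κ * ‖y‖ ^ 2 / 2 : ℝ) : EReal))) ∧
    (∫⁻ x, EReal.exp (-V x)) ≠ 0 ∧ (∫⁻ x, EReal.exp (-V x)) ≠ ⊤ ∧
    μ = (∫⁻ x, EReal.exp (-V x))⁻¹ • volume.withDensity fun x => EReal.exp (-V x)

/-- The Poincaré constant: the least `C ∈ [0, ∞]` such that `Var_μ f ≤ C ∫ |∇f|² dμ` for all smooth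
functions `f` with compact support. -/
noncomputable def poincareConst {n : ℕ} (μ : Measure (E n)) : ℝ≥0∞ :=
  sInf {C : ℝ≥0∞ | ∀ f : E n → ℝ, ContDiff ℝ ∞ f → HasCompactSupport f →
    ENNReal.ofReal (∫ x, (f x - ∫ y, f y ∂μ) ^ 2 ∂μ) ≤ C * ∫⁻ x, ‖gradient f x‖ₑ ^ 2 ∂μ}

/-- `π` is a coupling of `ν` and `μ` -/
def IsCoupling {n : ℕ} (π : Measure (E n × E n)) (ν μ : Measure (E n)) : Prop :=
  π.map Prod.fst = ν ∧ π.map Prod.snd = μ

/-- the square of the quadratic Wasserstein distance -/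
noncomputable def W2sq {n : ℕ} (ν μ : Measure (E n)) : ℝ≥0∞ :=
  ⨅ (π : Measure (E n × E n)) (_ : IsCoupling π ν μ), ∫⁻ z, ‖z.1 - z.2‖ₑ ^ 2 ∂π

/-- `ν` is a barycenter of `μ 1, …, μ N` with the weights `w 1, …, w N` -/
def IsBarycenter {n N : ℕ} (w : Fin N → ℝ) (μ : Fin N → Measure (E n)) (ν : Measure (E n)) : Prop :=
  IsProbabilityMeasure ν ∧ ∀ ν' : Measure (E n), IsProbabilityMeasure ν' →
    ∑ i, ENNReal.ofReal (w i) * W2sq ν (μ i) ≤ ∑ i, ENNReal.ofReal (w i) * W2sq ν' (μ i)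

/-- `μ` splits off a curvature-saturating Gaussian factor in the direction `e`: `μ` is the product
of the Gaussian measure on the line of `e` with mean `⟪e, m⟫`, `m` the mean of `μ`, and variance
`1 / κ`, and of a probability measure on the orthogonal complement of `e`. -/
def SplitsOff {n : ℕ} (κ : ℝ) (μ : Measure (E n)) (e : E n) : Prop :=
  ∃ ν' : Measure (E n), IsProbabilityMeasure ν' ∧ (∀ᵐ x ∂ν', ⟪e, x⟫ = 0) ∧
    μ = ((gaussianReal ⟪e, ∫ x, x ∂μ⟫ (κ⁻¹).toNNReal).prod ν').map (fun p : ℝ × E n => p.1 • e + p.2)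

/-- **Theorem (negative answer to Q2 in all dimensions `n ≥ 5`).** For every `n ≥ 5` and every `C`
there are `N`, weights `w i = 1 / N`, `κ > 0`, probability measures `μ 1, …, μ N` on `ℝⁿ` which are
`κ`-strongly log-concave and split off a curvature-saturating Gaussian factor in a common direction
`e`, and a barycenter `ν` of them with `√(C_P(ν)) > C ∑ w i / √(κ i)`, `κ i = κ`; for `C = 1` there is
no equality. -/
theorem result (n : ℕ) (hn : 5 ≤ n) (C : ℝ) :
    ∃ (N : ℕ) (w κ : Fin N → ℝ) (μ : Fin N → Measure (E n)) (ν : Measure (E n)) (e : E n),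
      (∀ i, 0 < w i) ∧ ∑ i, w i = 1 ∧ (∀ i, w i = 1 / N) ∧
      (∀ i, 0 < κ i) ∧ (∀ i, κ i = 1 / (10 * ((n : ℝ) - 1) ^ 2)) ∧
      (∀ i, IsProbabilityMeasure (μ i)) ∧ (∀ i, StronglyLogConcave (κ i) (μ i)) ∧
      IsBarycenter w μ ν ∧ ‖e‖ = 1 ∧ (∀ i, SplitsOff (κ i) (μ i) e) ∧
      ENNReal.ofReal (C * ∑ i, w i / √(κ i)) < poincareConst ν ^ (1 / 2 : ℝ) := by
  obtain ⟨m, rfl⟩ : ∃ m, n = m + 1 := ⟨n - 1, by omega⟩
  have hm : 4 ≤ m := by omega
  have hm0 : (0 : ℝ) < m := by exact_mod_cast (by omega : 0 < m)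
  have : Nonempty (Fin m) := ⟨⟨0, by omega⟩⟩
  have hcard : Fintype.card (Fin m) = m := Fintype.card_fin m
  have : Nontrivial (E m) := by
    refine ⟨EuclideanSpace.single ⟨0, by omega⟩ (1 : ℝ), 0, fun h => ?_⟩
    have h1 := congrArg norm h
    rw [PiLp.norm_single, norm_one, norm_zero] at h1
    exact one_ne_zero h1
  have hspl := Pool.Agent.K1H99.BC.isSpl_euclidean m
  set e : E (m + 1) := EuclideanSpace.single (0 : Fin (m + 1)) (1 : ℝ) with he
  obtain ⟨B, ν, νs, hs, hsol, hlim⟩ := Pool.Agent.K1H99.BC.exists_seq (E := E m) (ι := Fin m)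
    (by rw [finrank_euclideanSpace_fin, hcard]) (by rw [hcard]; omega)
  rw [hcard] at hs
  set κ₀ : ℝ := 1 / (10 * (m : ℝ) ^ 2) with hκ₀
  have hκpos : 0 < κ₀ := by positivity
  have hκ₀' : κ₀ = 1 / (10 * (((m + 1 : ℕ) : ℝ) - 1) ^ 2) := by
    rw [hκ₀]
    push_cast
    ring
  obtain ⟨k, hk⟩ := Pool.Agent.K1H99.BC.cP_unbounded hs hlim ((|C| * (1 / √κ₀)) ^ 2 + 1)
    (by positivity)
  have hk' := Pool.Agent.K1H99.BC.cP_lift hspl (κ := κ₀) (by positivity) hk
  simp only [hcard] at hsol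
  have hw0 : (0 : ℝ) < 1 / (((k : ℝ) + 1) * m) := by positivity
  have hpm : ∀ q : Fin (k + 1) × Fin m, IsProbabilityMeasure
      (Pool.Agent.K1H99.BC.mu (E := E m) m (Pool.Agent.K1H99.BC.eps k) (B q.1 q.2)) := by
    intro q
    have := Pool.Agent.K1H99.BC.prob_mu (B q.1) q.2 (by rw [hcard]; omega)
      (Pool.Agent.K1H99.BC.eps k)
    rwa [hcard] at this
  have hsol' := Pool.Agent.K1H99.BC.lift_sol hspl κ₀ (hsol k)
  have hlp := Pool.Agent.K1H99.BC.lift_prob (e := e) (J := Pool.Agent.K1H99.BC.Je m) κ₀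
    (ν k : Measure (E m))
  have hb := Pool.Agent.K1H99.BC.bary_of_sol (w := fun _ : Fin (k + 1) × Fin m =>
    1 / (((k : ℝ) + 1) * m)) (fun _ => hw0) (by
      rw [Finset.sum_const, Finset.card_univ, Fintype.card_prod, Fintype.card_fin,
        Fintype.card_fin, nsmul_eq_mul]
      push_cast
      field_simp) hlp hsol'
  have hb' := Pool.Agent.K1H99.BC.bary_reindex (finProdFinEquiv (m := k + 1) (n := m)).symm hb
  have hN : (((k + 1) * m : ℕ) : ℝ) = ((k : ℝ) + 1) * m := by push_cast; rfl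
  have hsum1 : ∑ _i : Fin ((k + 1) * m), 1 / (((k : ℝ) + 1) * (m : ℝ)) = 1 := by
    rw [Finset.sum_const, Finset.card_univ, Fintype.card_fin, nsmul_eq_mul, hN]
    field_simp
  refine ⟨(k + 1) * m, fun _ => 1 / (((k : ℝ) + 1) * m), fun _ => κ₀,
    fun i => Pool.Agent.K1H99.BC.lift κ₀ e (Pool.Agent.K1H99.BC.Je m)
      (Pool.Agent.K1H99.BC.mu m (Pool.Agent.K1H99.BC.eps k)
        (B (finProdFinEquiv.symm i).1 (finProdFinEquiv.symm i).2)),
    Pool.Agent.K1H99.BC.lift κ₀ e (Pool.Agent.K1H99.BC.Je m) (ν k : Measure (E m)), e,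
    fun _ => hw0, hsum1, fun _ => by rw [hN], fun _ => hκpos, fun _ => hκ₀', fun i => ?_,
    fun i => ?_, ?_, hspl.norm_e, fun i => ?_, ?_⟩
  · have := hpm (finProdFinEquiv.symm i)
    exact Pool.Agent.K1H99.BC.lift_prob _ _
  · have := Pool.Agent.K1H99.BC.strongLC_lift_mu hspl (B (finProdFinEquiv.symm i).1)
      (finProdFinEquiv.symm i).2 (by rw [hcard]; omega) (Pool.Agent.K1H99.BC.eps_pos k)
      ((Pool.Agent.K1H99.BC.eps_le k).trans (by norm_num))
    rw [hcard] at this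
    exact this
  · exact hb'
  · have := hpm (finProdFinEquiv.symm i)
    exact Pool.Agent.K1H99.BC.lift_split hspl κ₀ _
  · have e1 : poincareConst (Pool.Agent.K1H99.BC.lift κ₀ e (Pool.Agent.K1H99.BC.Je m)
        (ν k : Measure (E m))) = Pool.Agent.K1H99.BC.cP (Pool.Agent.K1H99.BC.lift κ₀ e
          (Pool.Agent.K1H99.BC.Je m) (ν k : Measure (E m))) := by
      unfold poincareConst Pool.Agent.K1H99.BC.cP
      have h1 : ∀ (f : E (m + 1) → ℝ) (x : E (m + 1)), ‖gradient f x‖ₑ = ‖fderiv ℝ f x‖ₑ := by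
        intro f x
        unfold gradient
        rw [← ofReal_norm, ← ofReal_norm, LinearIsometryEquiv.norm_map]
      simp_rw [h1]
    rw [e1, ← Finset.sum_div, hsum1]
    have h2 : ENNReal.ofReal (C * (1 / √κ₀)) ≤ ENNReal.ofReal (|C| * (1 / √κ₀)) := by
      apply ENNReal.ofReal_le_ofReal
      exact mul_le_mul_of_nonneg_right (le_abs_self C) (by positivity)
    refine lt_of_le_of_lt h2 ?_
    have h3 : (ENNReal.ofReal ((|C| * (1 / √κ₀)) ^ 2)) ^ (1 / 2 : ℝ) =
        ENNReal.ofReal (|C| * (1 / √κ₀)) := by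
      rw [ENNReal.ofReal_rpow_of_nonneg (by positivity) (by norm_num), ← Real.sqrt_eq_rpow,
        Real.sqrt_sq (by positivity)]
    rw [← h3]
    exact ENNReal.rpow_lt_rpow hk' (by norm_num)

end Pool.Agent.Results.MP_7c2736_pr.SplittingNotEnough
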